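import Pool.Agent.N305.CG.Stm3
import Pool.Agent.N933.CG.TH

set_option autoImplicit false

/-! Project CG (helper305), part 3: mean squares on rectangles (helper654). -/

open MeasureTheory Set

namespace N654.CG

open Pool.Agent.TH478.CE Pool.Agent.R248.LPT Pool.Agent.N305.CG

theorem locFin {μ : Measure P} (h : IsDual μ) : IsLocallyFiniteMeasure μ := by
  obtain ⟨n, hn⟩ := h.temperate
  refine ⟨fun x => ⟨Metric.ball x 1, Metric.ball_mem_nhds x one_pos, ?_⟩⟩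
  have h1 := hn.measure_norm_ge_lt_top (ε := (1 + (‖x‖ + 1)) ^ (-(n : ℝ))) (by positivity)
  refine lt_of_le_of_lt (measure_mono ?_) h1
  intro y hy
  rw [Metric.mem_ball, dist_eq_norm] at hy
  have h2 : ‖y‖ ≤ ‖x‖ + 1 := by
    calc ‖y‖ = ‖(y - x) + x‖ := by rw [sub_add_cancel]
      _ ≤ ‖y - x‖ + ‖x‖ := norm_add_le _ _
      _ ≤ ‖x‖ + 1 := by linarith
  show (1 + (‖x‖ + 1)) ^ (-(n : ℝ)) ≤ ‖(1 + ‖y‖) ^ (-(n : ℝ))‖
  rw [Real.norm_of_nonneg (by positivity)]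
  exact Real.rpow_le_rpow_of_nonpos (by positivity) (by linarith) (by simp)

theorem meas_mk (b : ℝ) : Measurable (fun v : ℝ => (⟨b, v⟩ : ℂ)) :=
  Complex.measurableEquivRealProd.symm.measurable.comp (measurable_const.prodMk measurable_id)

theorem meas_TT {μ : Measure P} (h : IsDual μ) : Measurable (fun z : ℂ => TT μ z.re z.im) := by
  have := locFin h
  have hc : Continuous (fun q : ℂ × P =>
      Complex.exp (-((q.1.re : ℂ) + (q.1.im : ℂ) * Complex.I) * (((‖q.2‖ ^ 2 : ℝ)) : ℂ))) := by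
    fun_prop
  have h1 : StronglyMeasurable (fun z : ℂ =>
      ∫ x, Complex.exp (-((z.re : ℂ) + (z.im : ℂ) * Complex.I) * (((‖x‖ ^ 2 : ℝ)) : ℂ)) ∂μ) :=
    hc.stronglyMeasurable.integral_prod_right'
  exact measurable_const.add h1.measurable

/-- the density -/
noncomputable def gg (μ : Measure P) (z : ℂ) : ENNReal := ENNReal.ofReal (‖TT μ z.re z.im‖ ^ 2)

theorem meas_gg {μ : Measure P} (h : IsDual μ) : Measurable (gg μ) :=
  ((meas_TT h).norm.pow_const 2).ennreal_ofReal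

theorem tonelli (f : ℂ → ENNReal) (hf : Measurable f) (A B : Set ℝ) :
    ∫⁻ z in {z : ℂ | z.re ∈ A ∧ z.im ∈ B}, f z = ∫⁻ x in A, ∫⁻ y in B, f ⟨x, y⟩ := by
  have hmp := Complex.volume_preserving_equiv_real_prod.symm
  have h1 := hmp.setLIntegral_comp_preimage_emb
    Complex.measurableEquivRealProd.symm.measurableEmbedding f {z : ℂ | z.re ∈ A ∧ z.im ∈ B}
  rw [← h1]
  have h2 : (Complex.measurableEquivRealProd.symm ⁻¹' {z : ℂ | z.re ∈ A ∧ z.im ∈ B}) = A ×ˢ B := by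
    ext p
    rfl
  rw [h2, Measure.volume_eq_prod, ← Measure.prod_restrict, lintegral_prod]
  · rfl
  · exact (hf.comp Complex.measurableEquivRealProd.symm.measurable).aemeasurable

/-- bounded on vertical lines -/
theorem TT_le (μ : Measure P) (b v : ℝ) :
    ‖TT μ b v‖ ≤ 1 + ∫ x, Real.exp (-b * ‖x‖ ^ 2) ∂μ := by
  unfold TT
  refine (norm_add_le _ _).trans ?_
  rw [norm_one]
  refine add_le_add le_rfl ((norm_integral_le_integral_norm _).trans (le_of_eq ?_))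
  congr 1
  funext x
  rw [Complex.norm_exp]
  congr 1
  simp only [neg_mul, Complex.neg_re, Complex.mul_re, Complex.add_re, Complex.ofReal_re,
    Complex.add_im, Complex.ofReal_im, Complex.mul_im, Complex.I_re, Complex.I_im]
  ring

theorem line_lint {ν : Measure P} (h : IsDual ν) (b a V M : ℝ) (hV : 0 ≤ V)
    (hb : ∫ v in a..(a + V), ‖TT ν b v‖ ^ 2 ≤ M) :
    ∫⁻ v in Icc a (a + V), gg ν ⟨b, v⟩ ≤ ENNReal.ofReal M := by
  have hm : Measurable (fun v : ℝ => TT ν b v) :=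
    (meas_TT h).comp (meas_mk b)
  have hm2 : Measurable (fun v : ℝ => ‖TT ν b v‖ ^ 2) := hm.norm.pow_const 2
  set M' := 1 + ∫ x, Real.exp (-b * ‖x‖ ^ 2) ∂ν with hM'
  have hint : IntegrableOn (fun v => ‖TT ν b v‖ ^ 2) (Icc a (a + V)) := by
    refine Measure.integrableOn_of_bounded (M := M' ^ 2) ?_ hm2.aestronglyMeasurable ?_
    · rw [Real.volume_Icc]; exact ENNReal.ofReal_ne_top
    · refine Filter.Eventually.of_forall fun v => ?_
      rw [Real.norm_of_nonneg (by positivity)]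
      exact pow_le_pow_left₀ (norm_nonneg _) (TT_le ν b v) 2
  have h1 := ofReal_integral_eq_lintegral_ofReal hint
    (Filter.Eventually.of_forall fun v => by positivity)
  unfold gg
  simp only
  rw [← h1]
  apply ENNReal.ofReal_le_ofReal
  rw [integral_Icc_eq_integral_Ioc, ← intervalIntegral.integral_of_le (by linarith)]
  exact hb

theorem rect_lint {ν : Measure P} (h : IsDual ν) (C : ℝ) (hC : 0 < C)
    (hNS : ∀ b a V : ℝ, 0 < b → 1 ≤ V →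
      ∫ v in a..(a + V), ‖TT ν b v‖ ^ 2 ≤ C * V * (1 + b ^ (-(4 / 3 : ℝ))))
    (p q a V : ℝ) (hp : 0 < p) (hV : 1 ≤ V) :
    ∫⁻ z in {z : ℂ | z.re ∈ Icc p q ∧ z.im ∈ Icc a (a + V)}, gg ν z ≤
      ENNReal.ofReal (C * V * (1 + p ^ (-(4 / 3 : ℝ)))) * ENNReal.ofReal (q - p) := by
  rw [tonelli _ (meas_gg h)]
  calc ∫⁻ x in Icc p q, ∫⁻ y in Icc a (a + V), gg ν ⟨x, y⟩
      ≤ ∫⁻ x in Icc p q, ENNReal.ofReal (C * V * (1 + p ^ (-(4 / 3 : ℝ)))) := by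
        refine setLIntegral_mono' measurableSet_Icc ?_
        intro b hb
        have hb0 : 0 < b := lt_of_lt_of_le hp hb.1
        refine line_lint h b a V _ (by linarith) ((hNS b a V hb0 hV).trans ?_)
        have h1 : b ^ (-(4 / 3 : ℝ)) ≤ p ^ (-(4 / 3 : ℝ)) :=
          Real.rpow_le_rpow_of_nonpos hp hb.1 (by norm_num)
        have h2 : 0 ≤ C * V := by positivity
        exact mul_le_mul_of_nonneg_left (by linarith) h2
    _ = ENNReal.ofReal (C * V * (1 + p ^ (-(4 / 3 : ℝ)))) * ENNReal.ofReal (q - p) := by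
        rw [setLIntegral_const, Real.volume_Icc]

/-! ### the change of variables -/

theorem det_smul_one (c : ℂ) : (c • (1 : ℂ →L[ℝ] ℂ)).det = ‖c‖ ^ 2 := by
  have h1 : ((c • (1 : ℂ →L[ℝ] ℂ) : ℂ →L[ℝ] ℂ) : ℂ →ₗ[ℝ] ℂ) = LinearMap.mul ℝ ℂ c := by
    ext <;> simp
  have h2 : (c • (1 : ℂ →L[ℝ] ℂ)).det = LinearMap.det (LinearMap.mul ℝ ℂ c) := by
    rw [← h1]
  have h3 := Algebra.norm_complex_apply c
  rw [Algebra.norm_apply] at h3
  rw [h2, ← Complex.normSq_eq_norm_sq, ← h3]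
  rfl

/-- the map `z ↦ π²/z` -/
noncomputable def T (z : ℂ) : ℂ := (Real.pi : ℂ) ^ 2 / z

theorem cov (D : Set ℂ) (hD : MeasurableSet D) (hD0 : ∀ z ∈ D, z ≠ 0) (g : ℂ → ENNReal) :
    ∫⁻ u in T '' D, g u = ∫⁻ z in D, ENNReal.ofReal (Real.pi ^ 4 / ‖z‖ ^ 4) * g (T z) := by
  have hder : ∀ z ∈ D, HasFDerivWithinAt T ((-(Real.pi : ℂ) ^ 2 / z ^ 2) • (1 : ℂ →L[ℝ] ℂ)) D z := by
    intro z hz
    have h1 : HasDerivAt T (-(Real.pi : ℂ) ^ 2 / z ^ 2) z := by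
      have h2 := (hasDerivAt_inv (hD0 z hz)).const_mul ((Real.pi : ℂ) ^ 2)
      have h3 : (Real.pi : ℂ) ^ 2 * -(z ^ 2)⁻¹ = -(Real.pi : ℂ) ^ 2 / z ^ 2 := by
        rw [div_eq_mul_inv]; ring
      rw [h3] at h2
      exact h2
    exact h1.complexToReal_fderiv.hasFDerivWithinAt
  have hpi : (Real.pi : ℂ) ^ 2 ≠ 0 := by
    have := Real.pi_ne_zero
    exact pow_ne_zero 2 (by exact_mod_cast this)
  have hinj : InjOn T D := by
    intro z hz w hw hzw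
    unfold T at hzw
    rw [div_eq_div_iff (hD0 z hz) (hD0 w hw)] at hzw
    exact (mul_left_cancel₀ hpi hzw).symm
  rw [lintegral_image_eq_lintegral_abs_det_fderiv_mul volume hD hder hinj]
  refine setLIntegral_congr_fun hD ?_
  intro z hz
  simp only
  congr 2
  rw [det_smul_one, abs_of_nonneg (by positivity), norm_div, norm_neg, norm_pow, norm_pow,
    Complex.norm_real, Real.norm_of_nonneg Real.pi_pos.le]
  ring

theorem T_re (z : ℂ) : (T z).re = Real.pi ^ 2 * z.re / (z.re ^ 2 + z.im ^ 2) := by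
  unfold T
  have h1 : (Real.pi : ℂ) ^ 2 = ((Real.pi ^ 2 : ℝ) : ℂ) := by push_cast; rfl
  rw [h1, Complex.div_re, Complex.ofReal_re, Complex.ofReal_im, Complex.normSq_apply]
  ring

theorem T_im (z : ℂ) : (T z).im = -(Real.pi ^ 2 * z.im / (z.re ^ 2 + z.im ^ 2)) := by
  unfold T
  have h1 : (Real.pi : ℂ) ^ 2 = ((Real.pi ^ 2 : ℝ) : ℂ) := by push_cast; rfl
  rw [h1, Complex.div_im, Complex.ofReal_re, Complex.ofReal_im, Complex.normSq_apply]
  ring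

/-- the functional equation for the squares -/
theorem fe_sq {μ ν : Measure P} (hFE : ∀ β ω : ℝ, 0 < β →
    ((β : ℂ) + (ω : ℂ) * Complex.I) * TT μ β ω =
      (Real.pi : ℂ) * TT ν (Real.pi ^ 2 * β / (β ^ 2 + ω ^ 2)) (-(Real.pi ^ 2 * ω / (β ^ 2 + ω ^ 2))))
    (z : ℂ) (hz : 0 < z.re) :
    ‖z‖ ^ 2 * ‖TT μ z.re z.im‖ ^ 2 = Real.pi ^ 2 * ‖TT ν (T z).re (T z).im‖ ^ 2 := by
  have h1 := hFE z.re z.im hz
  rw [Complex.re_add_im, ← T_re, ← T_im] at h1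
  have h2 := congrArg (fun w : ℂ => ‖w‖ ^ 2) h1
  simp only [norm_mul, Complex.norm_real, mul_pow] at h2
  rw [Real.norm_of_nonneg Real.pi_pos.le] at h2
  exact h2

/-- the blocks -/
def Bk (β x : ℝ) : Set ℂ := {z : ℂ | z.re ∈ Icc β (2 * β) ∧ z.im ∈ {y : ℝ | x ≤ |y| ∧ |y| ≤ 2 * x}}

theorem meas_Bk (β x : ℝ) : MeasurableSet (Bk β x) := by
  have h1 : IsClosed (Bk β x) := by
    unfold Bk
    simp only [mem_Icc]
    refine IsClosed.inter (IsClosed.inter ?_ ?_) (IsClosed.inter ?_ ?_)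
    · exact isClosed_le continuous_const Complex.continuous_re
    · exact isClosed_le Complex.continuous_re continuous_const
    · exact isClosed_le continuous_const Complex.continuous_im.abs
    · exact isClosed_le Complex.continuous_im.abs continuous_const
  exact h1.measurableSet

theorem block_geom (β x : ℝ) (hβ : 0 < β) (hx : 0 < x) (hβx : β ≤ 2 * x) (z : ℂ) (hz : z ∈ Bk β x) :
    0 < z.re ∧ z ≠ 0 ∧ x ^ 2 ≤ ‖z‖ ^ 2 ∧ ‖z‖ ^ 2 ≤ 20 * x ^ 2 ∧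
    (T z).re ∈ Icc (Real.pi ^ 2 * β / (20 * x ^ 2)) (40 * (Real.pi ^ 2 * β / (20 * x ^ 2))) ∧
    (T z).im ∈ Icc (-(Real.pi ^ 2 / x)) (-(Real.pi ^ 2 / x) + 2 * (Real.pi ^ 2 / x)) := by
  obtain ⟨⟨h1, h2⟩, h3, h4⟩ := hz
  have hre : 0 < z.re := lt_of_lt_of_le hβ h1
  have hns : ‖z‖ ^ 2 = z.re ^ 2 + z.im ^ 2 := by
    rw [← Complex.normSq_eq_norm_sq, Complex.normSq_apply]; ring
  have him1 : x ^ 2 ≤ z.im ^ 2 := by
    rw [← sq_abs z.im]; exact pow_le_pow_left₀ hx.le h3 2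
  have him2 : z.im ^ 2 ≤ (2 * x) ^ 2 := by
    rw [← sq_abs z.im]; exact pow_le_pow_left₀ (abs_nonneg _) h4 2
  have hre2 : z.re ^ 2 ≤ (4 * x) ^ 2 := pow_le_pow_left₀ hre.le (by linarith) 2
  have hlow : x ^ 2 ≤ ‖z‖ ^ 2 := by rw [hns]; nlinarith [sq_nonneg z.re]
  have hupp : ‖z‖ ^ 2 ≤ 20 * x ^ 2 := by rw [hns]; nlinarith
  have hx2 : 0 < x ^ 2 := by positivity
  have hpi2 : 0 < Real.pi ^ 2 := by have := Real.pi_pos; positivity
  refine ⟨hre, fun h => ?_, hlow, hupp, ?_, ?_⟩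
  · rw [h] at hre; simp at hre
  · rw [T_re, ← hns]
    constructor
    · rw [div_le_div_iff₀ (by positivity) (by linarith)]
      have k1 : Real.pi ^ 2 * β * ‖z‖ ^ 2 ≤ Real.pi ^ 2 * β * (20 * x ^ 2) :=
        mul_le_mul_of_nonneg_left hupp (by positivity)
      have k2 : Real.pi ^ 2 * β * (20 * x ^ 2) ≤ Real.pi ^ 2 * z.re * (20 * x ^ 2) :=
        mul_le_mul_of_nonneg_right (mul_le_mul_of_nonneg_left h1 hpi2.le) (by positivity)
      linarith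
    · have e : 40 * (Real.pi ^ 2 * β / (20 * x ^ 2)) = Real.pi ^ 2 * (2 * β) / x ^ 2 := by
        field_simp
        norm_num
      rw [e, div_le_div_iff₀ (by linarith) hx2]
      have k1 : Real.pi ^ 2 * z.re * x ^ 2 ≤ Real.pi ^ 2 * (2 * β) * x ^ 2 :=
        mul_le_mul_of_nonneg_right (mul_le_mul_of_nonneg_left h2 hpi2.le) hx2.le
      have k2 : Real.pi ^ 2 * (2 * β) * x ^ 2 ≤ Real.pi ^ 2 * (2 * β) * ‖z‖ ^ 2 :=
        mul_le_mul_of_nonneg_left hlow (by positivity)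
      linarith
  · have hab : |(T z).im| ≤ Real.pi ^ 2 / x := by
      rw [T_im, abs_neg, abs_div, abs_mul, abs_of_pos hpi2, ← hns,
        abs_of_nonneg (sq_nonneg ‖z‖),
        div_le_div_iff₀ (by linarith) hx]
      have k1 : |z.im| * x ≤ |z.im| * |z.im| := mul_le_mul_of_nonneg_left h3 (abs_nonneg _)
      have k2 : |z.im| * |z.im| ≤ ‖z‖ ^ 2 := by
        rw [hns, abs_mul_abs_self]; nlinarith [sq_nonneg z.re]
      have k3 : |z.im| * x ≤ ‖z‖ ^ 2 := k1.trans k2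
      have k4 := mul_le_mul_of_nonneg_left k3 hpi2.le
      linarith
    obtain ⟨k1, k2⟩ := abs_le.1 hab
    exact ⟨k1, by linarith⟩

/-- a block, measure theoretic part -/
theorem block1 {μ ν : Measure P} (hν : IsDual ν) (hFE : ∀ β ω : ℝ, 0 < β →
    ((β : ℂ) + (ω : ℂ) * Complex.I) * TT μ β ω =
      (Real.pi : ℂ) * TT ν (Real.pi ^ 2 * β / (β ^ 2 + ω ^ 2)) (-(Real.pi ^ 2 * ω / (β ^ 2 + ω ^ 2))))
    (C : ℝ) (hC : 0 < C)
    (hNS : ∀ b a V : ℝ, 0 < b → 1 ≤ V →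
      ∫ v in a..(a + V), ‖TT ν b v‖ ^ 2 ≤ C * V * (1 + b ^ (-(4 / 3 : ℝ))))
    (β x : ℝ) (hβ : 0 < β) (hx : 0 < x) (hx1 : x ≤ 1) (hβx : β ≤ 2 * x) :
    ∫⁻ z in Bk β x, gg μ z ≤ ENNReal.ofReal (20 * x ^ 2 / Real.pi ^ 2) *
      (ENNReal.ofReal (C * (2 * (Real.pi ^ 2 / x)) *
        (1 + (Real.pi ^ 2 * β / (20 * x ^ 2)) ^ (-(4 / 3 : ℝ)))) *
        ENNReal.ofReal (40 * (Real.pi ^ 2 * β / (20 * x ^ 2)) - Real.pi ^ 2 * β / (20 * x ^ 2))) := by
  have hpi2 : 0 < Real.pi ^ 2 := by have := Real.pi_pos; positivity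
  have hpi9 : 9 ≤ Real.pi ^ 2 := by nlinarith [Real.pi_gt_three]
  have hgeo := block_geom β x hβ hx hβx
  have h1 : ∫⁻ z in Bk β x, gg μ z ≤ ∫⁻ z in Bk β x, ENNReal.ofReal (20 * x ^ 2 / Real.pi ^ 2) *
      (ENNReal.ofReal (Real.pi ^ 4 / ‖z‖ ^ 4) * gg ν (T z)) := by
    refine setLIntegral_mono' (meas_Bk β x) ?_
    intro z hz
    obtain ⟨hre, hz0, hlow, hupp, _, _⟩ := hgeo z hz
    have hfe := fe_sq hFE z hre
    have hn : 0 < ‖z‖ ^ 2 := by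
      have := norm_pos_iff.2 hz0
      positivity
    unfold gg
    rw [← ENNReal.ofReal_mul (by positivity), ← ENNReal.ofReal_mul (by positivity)]
    apply ENNReal.ofReal_le_ofReal
    have e1 : ‖TT μ z.re z.im‖ ^ 2 = Real.pi ^ 2 / ‖z‖ ^ 2 * ‖TT ν (T z).re (T z).im‖ ^ 2 := by
      rw [div_mul_eq_mul_div, eq_div_iff hn.ne', ← hfe]; ring
    have e2 : Real.pi ^ 2 / ‖z‖ ^ 2 * ‖TT ν (T z).re (T z).im‖ ^ 2 =
        ‖z‖ ^ 2 / Real.pi ^ 2 * (Real.pi ^ 4 / ‖z‖ ^ 4 * ‖TT ν (T z).re (T z).im‖ ^ 2) := by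
      have hn' : ‖z‖ ≠ 0 := (norm_pos_iff.2 hz0).ne'
      field_simp
    rw [e1, e2]
    refine mul_le_mul_of_nonneg_right ?_ (by positivity)
    exact div_le_div_of_nonneg_right hupp hpi2.le
  refine h1.trans ?_
  rw [lintegral_const_mul' _ _ ENNReal.ofReal_ne_top]
  gcongr
  rw [← cov (Bk β x) (meas_Bk β x) (fun z hz => (hgeo z hz).2.1)]
  have hV : 1 ≤ 2 * (Real.pi ^ 2 / x) := by
    have : 9 ≤ Real.pi ^ 2 / x := by
      rw [le_div_iff₀ hx]; nlinarith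
    linarith
  refine le_trans (lintegral_mono_set ?_) (rect_lint hν C hC hNS
    (Real.pi ^ 2 * β / (20 * x ^ 2)) (40 * (Real.pi ^ 2 * β / (20 * x ^ 2)))
    (-(Real.pi ^ 2 / x)) (2 * (Real.pi ^ 2 / x)) (by positivity) hV)
  rintro _ ⟨z, hz, rfl⟩
  exact ⟨(hgeo z hz).2.2.2.2.1, (hgeo z hz).2.2.2.2.2⟩

/-- a block, the powers -/
theorem block2 (C β x : ℝ) (hC : 0 < C) (hβ : 0 < β) (hx : 0 < x) (hβx : β ≤ 4 * x ^ 2) :
    20 * x ^ 2 / Real.pi ^ 2 * (C * (2 * (Real.pi ^ 2 / x)) *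
        (1 + (Real.pi ^ 2 * β / (20 * x ^ 2)) ^ (-(4 / 3 : ℝ))) *
        (40 * (Real.pi ^ 2 * β / (20 * x ^ 2)) - Real.pi ^ 2 * β / (20 * x ^ 2))) ≤
      15600 * C * (x ^ (5 / 3 : ℝ) * β ^ (-(1 / 3 : ℝ))) := by
  have hpi2 : 0 < Real.pi ^ 2 := by have := Real.pi_pos; positivity
  have hpi10 : Real.pi ^ 2 ≤ 10 := by nlinarith [Real.pi_lt_d2, Real.pi_pos]
  have hpi9 : 9 ≤ Real.pi ^ 2 := by nlinarith [Real.pi_gt_three]
  obtain ⟨b, hb⟩ : ∃ b : ℝ, b = Real.pi ^ 2 * β / (20 * x ^ 2) := ⟨_, rfl⟩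
  rw [← hb]
  have hb0 : 0 < b := by rw [hb]; positivity
  have hb2 : b ≤ 2 := by
    rw [hb, div_le_iff₀ (by positivity)]
    have k1 : Real.pi ^ 2 * β ≤ 10 * β := mul_le_mul_of_nonneg_right hpi10 hβ.le
    linarith
  have hblow : β / (8 * x ^ 2) ≤ b := by
    rw [hb, div_le_div_iff₀ (by positivity) (by positivity)]
    have : 0 < β * x ^ 2 := by positivity
    nlinarith
  -- the powers of `b`
  have hs0 : 0 < b ^ (-(1 / 3 : ℝ)) := Real.rpow_pos_of_pos hb0 _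
  have e1 : b * b ^ (-(4 / 3 : ℝ)) = b ^ (-(1 / 3 : ℝ)) := by
    nth_rewrite 1 [← Real.rpow_one b]
    rw [← Real.rpow_add hb0]
    norm_num
  have e2 : b ≤ 4 * b ^ (-(1 / 3 : ℝ)) := by
    have k1 : b = b ^ (4 / 3 : ℝ) * b ^ (-(1 / 3 : ℝ)) := by
      rw [← Real.rpow_add hb0]; norm_num
    have k2 : b ^ (4 / 3 : ℝ) ≤ 4 := by
      calc b ^ (4 / 3 : ℝ) ≤ 2 ^ (4 / 3 : ℝ) := Real.rpow_le_rpow hb0.le hb2 (by norm_num)
        _ ≤ 2 ^ (2 : ℝ) := Real.rpow_le_rpow_of_exponent_le (by norm_num) (by norm_num)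
        _ = 4 := by norm_num
    calc b = b ^ (4 / 3 : ℝ) * b ^ (-(1 / 3 : ℝ)) := k1
      _ ≤ 4 * b ^ (-(1 / 3 : ℝ)) := mul_le_mul_of_nonneg_right k2 hs0.le
  have e3 : b ^ (-(1 / 3 : ℝ)) ≤ 2 * (x ^ (2 / 3 : ℝ) * β ^ (-(1 / 3 : ℝ))) := by
    have k1 : b ^ (-(1 / 3 : ℝ)) ≤ (β / (8 * x ^ 2)) ^ (-(1 / 3 : ℝ)) :=
      Real.rpow_le_rpow_of_nonpos (by positivity) hblow (by norm_num)
    have k2 : (β / (8 * x ^ 2)) ^ (-(1 / 3 : ℝ)) = 2 * (x ^ (2 / 3 : ℝ) * β ^ (-(1 / 3 : ℝ))) := by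
      rw [Real.div_rpow hβ.le (by positivity), Real.rpow_neg (by positivity : (0:ℝ) ≤ 8 * x ^ 2),
        div_inv_eq_mul, Real.mul_rpow (by norm_num) (by positivity)]
      have k3 : (8 : ℝ) ^ (1 / 3 : ℝ) = 2 := by
        have : (8 : ℝ) = 2 ^ (3 : ℝ) := by norm_num
        rw [this, ← Real.rpow_mul (by norm_num)]
        norm_num
      have k4 : (x ^ 2) ^ (1 / 3 : ℝ) = x ^ (2 / 3 : ℝ) := by
        rw [← Real.rpow_natCast x 2, ← Real.rpow_mul hx.le]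
        norm_num
      rw [k3, k4]
      ring
    rw [k2] at k1
    exact k1
  have e4 : x * x ^ (2 / 3 : ℝ) = x ^ (5 / 3 : ℝ) := by
    nth_rewrite 1 [← Real.rpow_one x]
    rw [← Real.rpow_add hx]
    norm_num
  have hlhs : 20 * x ^ 2 / Real.pi ^ 2 * (C * (2 * (Real.pi ^ 2 / x)) *
        (1 + b ^ (-(4 / 3 : ℝ))) * (40 * b - b)) =
      1560 * C * x * (b + b * b ^ (-(4 / 3 : ℝ))) := by
    field_simp
    ring
  rw [hlhs, e1]
  calc 1560 * C * x * (b + b ^ (-(1 / 3 : ℝ)))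
      ≤ 1560 * C * x * (5 * b ^ (-(1 / 3 : ℝ))) :=
        mul_le_mul_of_nonneg_left (by linarith) (by positivity)
    _ ≤ 1560 * C * x * (5 * (2 * (x ^ (2 / 3 : ℝ) * β ^ (-(1 / 3 : ℝ))))) :=
        mul_le_mul_of_nonneg_left (by linarith) (by positivity)
    _ = 15600 * C * ((x * x ^ (2 / 3 : ℝ)) * β ^ (-(1 / 3 : ℝ))) := by ring
    _ = 15600 * C * (x ^ (5 / 3 : ℝ) * β ^ (-(1 / 3 : ℝ))) := by rw [e4]

/-- rectangles -/
def Rc (β w : ℝ) : Set ℂ := {z : ℂ | z.re ∈ Icc β (2 * β) ∧ z.im ∈ Icc (-w) w}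

/-- the central part -/
theorem central {μ : Measure P} (hμ : IsDual μ) (K : ℝ) (hK : 0 < K)
    (hTG : ∀ γ : ℝ, 0 < γ → MM μ (gs γ) ≤ K * (1 + 1 / γ)) (β : ℝ) (hβ : 0 < β) (hβ1 : β ≤ 1) :
    ∫⁻ z in Rc β (√β), gg μ z ≤ ENNReal.ofReal (36 * Real.pi * K ^ 2) := by
  unfold Rc
  rw [tonelli _ (meas_gg hμ)]
  have hpt : ∀ b ∈ Icc β (2 * β), ∀ ω ∈ Icc (-√β) (√β),
      ‖TT μ b ω‖ ^ 2 ≤ 36 * K ^ 2 * (1 / (β ^ 2 + ω ^ 2)) := by
    intro b hb ω hω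
    have hb0 : 0 < b := lt_of_lt_of_le hβ hb.1
    have hr2 : 0 < b ^ 2 + ω ^ 2 := by positivity
    have hth := Pool.Agent.N933.CG.s_TH μ hμ b ω hb0
    have htg := hTG ((b ^ 2 + ω ^ 2) / b) (by positivity)
    obtain ⟨r, hr⟩ : ∃ r : ℝ, r = √(b ^ 2 + ω ^ 2) := ⟨_, rfl⟩
    have hr0 : 0 < r := by rw [hr]; exact Real.sqrt_pos.2 hr2
    have hrr : r ^ 2 = b ^ 2 + ω ^ 2 := by rw [hr, Real.sq_sqrt hr2.le]
    rw [← hr, ← hrr] at hth
    rw [← hrr] at htg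
    have hω2 : ω ^ 2 ≤ β := by
      have h1 : |ω| ≤ √β := abs_le.2 ⟨hω.1, hω.2⟩
      calc ω ^ 2 = |ω| ^ 2 := (sq_abs ω).symm
        _ ≤ (√β) ^ 2 := pow_le_pow_left₀ (abs_nonneg _) h1 2
        _ = β := Real.sq_sqrt hβ.le
    have hr5 : r ^ 2 ≤ 5 * β := by
      rw [hrr]
      have : b ^ 2 ≤ (2 * β) ^ 2 := pow_le_pow_left₀ hb0.le hb.2 2
      nlinarith
    have h2 : ‖TT μ b ω‖ ≤ 6 * K / r := by
      have h3 : r / b * MM μ (gs (r ^ 2 / b)) ≤ r / b * (K * (1 + 1 / (r ^ 2 / b))) :=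
        mul_le_mul_of_nonneg_left htg (by positivity)
      have h4 : r / b * (K * (1 + 1 / (r ^ 2 / b))) = K * (r ^ 2 / b + 1) / r := by
        field_simp
      have h5 : r ^ 2 / b ≤ 5 := by
        rw [div_le_iff₀ hb0]
        linarith [hb.1]
      have h6 : K * (r ^ 2 / b + 1) / r ≤ 6 * K / r := by
        apply div_le_div_of_nonneg_right _ hr0.le
        nlinarith
      linarith
    have h7 : ‖TT μ b ω‖ ^ 2 ≤ (6 * K / r) ^ 2 := pow_le_pow_left₀ (norm_nonneg _) h2 2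
    have h8 : (6 * K / r) ^ 2 = 36 * K ^ 2 * (1 / r ^ 2) := by field_simp; ring
    rw [h8, hrr] at h7
    refine h7.trans (mul_le_mul_of_nonneg_left ?_ (by positivity))
    apply one_div_le_one_div_of_le (by positivity)
    have : β ^ 2 ≤ b ^ 2 := pow_le_pow_left₀ hβ.le hb.1 2
    linarith
  have hint : ∫ ω in (-√β)..(√β), 36 * K ^ 2 * (1 / (β ^ 2 + ω ^ 2)) ≤ 36 * Real.pi * K ^ 2 / β := by
    have hd : ∀ ω ∈ uIcc (-√β) (√β),
        HasDerivAt (fun ω => 36 * K ^ 2 * (1 / β * Real.arctan (ω / β)))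
          (36 * K ^ 2 * (1 / (β ^ 2 + ω ^ 2))) ω := by
      intro ω _
      have h1 : HasDerivAt (fun ω : ℝ => ω / β) (1 / β) ω := (hasDerivAt_id ω).div_const β
      have h2 := ((h1.arctan).const_mul (1 / β)).const_mul (36 * K ^ 2)
      have h3 : 36 * K ^ 2 * (1 / β * (1 / (1 + (ω / β) ^ 2) * (1 / β))) =
          36 * K ^ 2 * (1 / (β ^ 2 + ω ^ 2)) := by
        have h4 : β ^ 2 + ω ^ 2 ≠ 0 := by positivity
        have h5 : 1 + (ω / β) ^ 2 = (β ^ 2 + ω ^ 2) / β ^ 2 := by field_simp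
        rw [h5]
        field_simp
      rw [h3] at h2
      exact h2
    have hc : Continuous (fun ω : ℝ => 36 * K ^ 2 * (1 / (β ^ 2 + ω ^ 2))) := by
      refine continuous_const.mul (continuous_const.div (by fun_prop) ?_)
      intro ω
      positivity
    rw [intervalIntegral.integral_eq_sub_of_hasDerivAt hd (hc.intervalIntegrable _ _)]
    have a1 := Real.arctan_lt_pi_div_two (√β / β)
    have a2 := Real.neg_pi_div_two_lt_arctan (-√β / β)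
    have e : 36 * Real.pi * K ^ 2 / β = 36 * K ^ 2 * (1 / β * Real.pi) := by ring
    rw [e, ← mul_sub, ← mul_sub]
    refine mul_le_mul_of_nonneg_left (mul_le_mul_of_nonneg_left ?_ (by positivity)) (by positivity)
    linarith
  have hin : ∀ b ∈ Icc β (2 * β), ∫⁻ ω in Icc (-√β) (√β), gg μ ⟨b, ω⟩ ≤
      ENNReal.ofReal (36 * Real.pi * K ^ 2 / β) := by
    intro b hb
    have hc : Continuous (fun ω : ℝ => 36 * K ^ 2 * (1 / (β ^ 2 + ω ^ 2))) := by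
      refine continuous_const.mul (continuous_const.div (by fun_prop) ?_)
      intro ω
      positivity
    have hI : IntegrableOn (fun ω : ℝ => 36 * K ^ 2 * (1 / (β ^ 2 + ω ^ 2))) (Icc (-√β) (√β)) :=
      hc.continuousOn.integrableOn_Icc
    have h1 := ofReal_integral_eq_lintegral_ofReal hI
      (Filter.Eventually.of_forall fun ω => by positivity)
    calc ∫⁻ ω in Icc (-√β) (√β), gg μ ⟨b, ω⟩
        ≤ ∫⁻ ω in Icc (-√β) (√β), ENNReal.ofReal (36 * K ^ 2 * (1 / (β ^ 2 + ω ^ 2))) := by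
          refine setLIntegral_mono' measurableSet_Icc ?_
          intro ω hω
          exact ENNReal.ofReal_le_ofReal (hpt b hb ω hω)
      _ = ENNReal.ofReal (∫ ω in Icc (-√β) (√β), 36 * K ^ 2 * (1 / (β ^ 2 + ω ^ 2))) := h1.symm
      _ ≤ ENNReal.ofReal (36 * Real.pi * K ^ 2 / β) := by
          apply ENNReal.ofReal_le_ofReal
          have hs : -√β ≤ √β := by linarith [Real.sqrt_nonneg β]
          rw [integral_Icc_eq_integral_Ioc, ← intervalIntegral.integral_of_le hs]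
          exact hint
  calc ∫⁻ x in Icc β (2 * β), ∫⁻ y in Icc (-√β) (√β), gg μ ⟨x, y⟩
      ≤ ∫⁻ x in Icc β (2 * β), ENNReal.ofReal (36 * Real.pi * K ^ 2 / β) :=
        setLIntegral_mono' measurableSet_Icc hin
    _ = ENNReal.ofReal (36 * Real.pi * K ^ 2 / β) * ENNReal.ofReal (2 * β - β) := by
        rw [setLIntegral_const, Real.volume_Icc]
    _ = ENNReal.ofReal (36 * Real.pi * K ^ 2) := by
        rw [← ENNReal.ofReal_mul (by have := Real.pi_pos; positivity)]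
        congr 1
        field_simp
        ring

theorem Rc_subset (β w : ℝ) : Rc β w ⊆ Rc β (w / 2) ∪ Bk β (w / 2) := by
  rintro z ⟨h1, h2, h3⟩
  by_cases h : |z.im| ≤ w / 2
  · left
    obtain ⟨k1, k2⟩ := abs_le.1 h
    exact ⟨h1, k1, k2⟩
  · right
    push Not at h
    refine ⟨h1, h.le, ?_⟩
    have : |z.im| ≤ w := abs_le.2 ⟨h2, h3⟩
    linarith

/-- the sum over the blocks -/
theorem sum_blocks (L : ℝ → ENNReal) (β C₁ C₃ : ℝ) (hβ : 0 < β) (hC₁ : 0 ≤ C₁) (hC₃ : 0 ≤ C₃)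
    (hmono : ∀ w w', w ≤ w' → L w ≤ L w') (h0 : L (√β) ≤ ENNReal.ofReal C₁)
    (hstep : ∀ w, √β ≤ w → w ≤ 1 →
      L w ≤ L (w / 2) + ENNReal.ofReal (C₃ * ((w / 2) ^ (5 / 3 : ℝ) * β ^ (-(1 / 3 : ℝ))))) :
    ∀ n : ℕ, ∀ w, 0 < w → w ≤ 1 → w ≤ 2 ^ n * √β →
      L w ≤ ENNReal.ofReal (C₁ + C₃ * (w ^ (5 / 3 : ℝ) * β ^ (-(1 / 3 : ℝ)))) := by
  have hbase : ∀ w, 0 < w → w ≤ √β →
      L w ≤ ENNReal.ofReal (C₁ + C₃ * (w ^ (5 / 3 : ℝ) * β ^ (-(1 / 3 : ℝ)))) := by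
    intro w hw hwβ
    refine ((hmono w _ hwβ).trans h0).trans (ENNReal.ofReal_le_ofReal ?_)
    have : 0 ≤ C₃ * (w ^ (5 / 3 : ℝ) * β ^ (-(1 / 3 : ℝ))) := by positivity
    linarith
  intro n
  induction n with
  | zero =>
    intro w hw _ hwn
    rw [pow_zero, one_mul] at hwn
    exact hbase w hw hwn
  | succ n ih =>
    intro w hw hw1 hwn
    by_cases hwβ : w ≤ √β
    · exact hbase w hw hwβ
    · push Not at hwβ
      have h1 := hstep w hwβ.le hw1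
      have h2 := ih (w / 2) (by linarith) (by linarith) (by rw [pow_succ] at hwn; linarith)
      refine h1.trans ((add_le_add h2 le_rfl).trans ?_)
      rw [← ENNReal.ofReal_add (by positivity) (by positivity)]
      apply ENNReal.ofReal_le_ofReal
      have h3 : 2 * (w / 2) ^ (5 / 3 : ℝ) ≤ w ^ (5 / 3 : ℝ) := by
        rw [Real.div_rpow hw.le (by norm_num)]
        have h4 : (2 : ℝ) ≤ 2 ^ (5 / 3 : ℝ) := by
          calc (2 : ℝ) = 2 ^ (1 : ℝ) := (Real.rpow_one 2).symm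
            _ ≤ 2 ^ (5 / 3 : ℝ) := Real.rpow_le_rpow_of_exponent_le (by norm_num) (by norm_num)
        have h5 : 0 < w ^ (5 / 3 : ℝ) := Real.rpow_pos_of_pos hw _
        rw [mul_div_assoc', div_le_iff₀ (by positivity)]
        nlinarith
      have h6 : 0 ≤ C₃ * β ^ (-(1 / 3 : ℝ)) := by positivity
      have h7 := mul_le_mul_of_nonneg_left h3 h6
      linarith

/-- from the lower integral to the iterated integral -/
theorem iter_le {μ : Measure P} (h : IsDual μ) (β w M : ℝ) (hβ : 0 ≤ β) (hw : 0 ≤ w) (hM : 0 ≤ M)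
    (hL : ∫⁻ z in Rc β w, gg μ z ≤ ENNReal.ofReal M) :
    ∫ b in β..(2 * β), ∫ ω in (-w)..w, ‖TT μ b ω‖ ^ 2 ≤ M := by
  unfold Rc at hL
  rw [tonelli _ (meas_gg h)] at hL
  have hin : ∀ b : ℝ, ∫ ω in (-w)..w, ‖TT μ b ω‖ ^ 2 =
      (∫⁻ ω in Icc (-w) w, gg μ ⟨b, ω⟩).toReal := by
    intro b
    have hm : Measurable (fun v : ℝ => TT μ b v) :=
      (meas_TT h).comp (meas_mk b)
    have hm2 : Measurable (fun v : ℝ => ‖TT μ b v‖ ^ 2) := hm.norm.pow_const 2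
    rw [intervalIntegral.integral_of_le (by linarith), ← integral_Icc_eq_integral_Ioc,
      integral_eq_lintegral_of_nonneg_ae (Filter.Eventually.of_forall fun v => by positivity)
        hm2.aestronglyMeasurable]
    rfl
  simp_rw [hin]
  have hmF : Measurable (fun b : ℝ => ∫⁻ ω in Icc (-w) w, gg μ ⟨b, ω⟩) := by
    have h1 : Measurable (fun p : ℝ × ℝ => gg μ ⟨p.1, p.2⟩) :=
      (meas_gg h).comp Complex.measurableEquivRealProd.symm.measurable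
    exact h1.lintegral_prod_right'
  rw [intervalIntegral.integral_of_le (by linarith), ← integral_Icc_eq_integral_Ioc,
    integral_eq_lintegral_of_nonneg_ae (Filter.Eventually.of_forall fun v => ENNReal.toReal_nonneg)
      hmF.ennreal_toReal.aestronglyMeasurable]
  refine ENNReal.toReal_le_of_le_ofReal hM (le_trans ?_ hL)
  exact lintegral_mono fun b => ENNReal.ofReal_toReal_le

theorem s_AR (h1 : S_PP) (h2 : S_FE) (h3 : S_NS) (h4 : S_TGU) : S_AR := by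
  intro α μ hμ
  obtain ⟨ν, hν, hpair⟩ := h1 α μ hμ
  have hFE := h2 μ ν hμ.2.1 hν.2.1 hpair
  obtain ⟨C, hC, hNS⟩ := h3 (Real.pi ^ 2 / α) hν.1
  obtain ⟨K, hK, hTG⟩ := h4 α hμ.1
  have hNSν := hNS ν hν
  have hTGμ := hTG μ hμ
  refine ⟨36 * Real.pi * K ^ 2 + 15600 * C, by have := Real.pi_pos; positivity, ?_⟩
  intro β w hβ hβ1 hβw hw1
  have hw : 0 < w := lt_of_lt_of_le hβ hβw
  have hsβ : 0 < √β := Real.sqrt_pos.2 hβ
  have hss : √β * √β = β := Real.mul_self_sqrt hβ.le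
  have hs1 : √β ≤ 1 := Real.sqrt_le_one.2 hβ1
  obtain ⟨n, hn⟩ := pow_unbounded_of_one_lt (w / √β) (by norm_num : (1 : ℝ) < 2)
  rw [div_lt_iff₀ hsβ] at hn
  have hstep : ∀ w, √β ≤ w → w ≤ 1 → (∫⁻ z in Rc β w, gg μ z) ≤
      (∫⁻ z in Rc β (w / 2), gg μ z) +
        ENNReal.ofReal (15600 * C * ((w / 2) ^ (5 / 3 : ℝ) * β ^ (-(1 / 3 : ℝ)))) := by
    intro w hw hw1
    have hw0 : 0 < w := lt_of_lt_of_le hsβ hw
    have k1 : β ≤ 2 * (w / 2) := by nlinarith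
    have k2 : β ≤ 4 * (w / 2) ^ 2 := by nlinarith
    have b1 := block1 hν.2.1 hFE C hC hNSν β (w / 2) hβ (by linarith) (by linarith) k1
    have b2 := block2 C β (w / 2) hC hβ (by linarith) k2
    have hpi : 0 < Real.pi := Real.pi_pos
    rw [← ENNReal.ofReal_mul (by positivity), ← ENNReal.ofReal_mul (by positivity)] at b1
    have b3 := b1.trans (ENNReal.ofReal_le_ofReal b2)
    calc ∫⁻ z in Rc β w, gg μ z ≤ ∫⁻ z in Rc β (w / 2) ∪ Bk β (w / 2), gg μ z :=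
          lintegral_mono_set (Rc_subset β w)
      _ ≤ (∫⁻ z in Rc β (w / 2), gg μ z) + ∫⁻ z in Bk β (w / 2), gg μ z := lintegral_union_le _ _ _
      _ ≤ _ := add_le_add le_rfl b3
  have hmono : ∀ w w', w ≤ w' → ∫⁻ z in Rc β w, gg μ z ≤ ∫⁻ z in Rc β w', gg μ z := by
    intro w w' h
    refine lintegral_mono_set ?_
    rintro z ⟨h1, h2, h3⟩
    exact ⟨h1, by linarith, by linarith⟩
  have hsum := sum_blocks (fun w => ∫⁻ z in Rc β w, gg μ z) β (36 * Real.pi * K ^ 2) (15600 * C) hβ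
    (by have := Real.pi_pos; positivity) (by positivity) hmono
    (central hμ.2.1 K hK hTGμ β hβ hβ1) hstep n w hw hw1 hn.le
  have hX : 0 ≤ w ^ (5 / 3 : ℝ) * β ^ (-(1 / 3 : ℝ)) := by positivity
  have hpi : 0 < Real.pi := Real.pi_pos
  refine (iter_le hμ.2.1 β w _ hβ.le hw.le (by positivity) hsum).trans ?_
  have hA : 0 ≤ 36 * Real.pi * K ^ 2 := by positivity
  have hB : 0 ≤ 15600 * C := by positivity
  nlinarith [mul_nonneg hA hX]

end N654.CG
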